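import Pool.Agent.H505R3.SLM.Stmts

/-!
Project H505-SLM, task C: a generic linear combination of forms without common factor is prime.
-/

set_option autoImplicit false

open MvPolynomial

namespace Pool.Agent.H218R3.SLM

universe u

/-- the statement over the polynomial ring with coefficients in `K[z]` -/
lemma prime_lin (K : Type u) [Field K] (ι σ : Type) [Fintype σ] [DecidableEq σ]
    (i j : ι) (hij : i ≠ j) (n : ℕ) (y : σ → MvPolynomial ι K)
    (hi : (X i ^ n : MvPolynomial ι K) ∈ Ideal.span (Set.range y))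
    (hj : (X j ^ n : MvPolynomial ι K) ∈ Ideal.span (Set.range y)) :
    Prime (∑ u, C (y u) * X u : MvPolynomial σ (MvPolynomial ι K)) := by
  set Q : MvPolynomial σ (MvPolynomial ι K) := ∑ u, C (y u) * X u with hQ
  have hcoeff : ∀ u, coeff (Finsupp.single u 1) Q = y u := by
    intro u
    rw [hQ, coeff_sum, Finset.sum_eq_single u]
    · rw [coeff_C_mul, coeff_X, if_pos rfl, mul_one]
    · intro v _ hv
      rw [coeff_C_mul, coeff_X, if_neg, mul_zero]
      intro h
      exact hv (Finsupp.single_left_injective one_ne_zero h)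
    · intro h
      exact absurd (Finset.mem_univ u) h
  have hQ0 : Q ≠ 0 := by
    intro h
    have h1 : ∀ u, y u = 0 := by
      intro u
      rw [← hcoeff u, h, coeff_zero]
    have h2 : Ideal.span (Set.range y) = ⊥ := by
      rw [Ideal.span_eq_bot]
      rintro _ ⟨u, rfl⟩
      exact h1 u
    rw [h2, Ideal.mem_bot] at hi
    exact pow_ne_zero n (X_ne_zero i) hi
  have hhom : Q.IsHomogeneous 1 := by
    rw [hQ]
    apply IsHomogeneous.sum
    intro u _
    exact isHomogeneous_C_mul_X _ _
  have hdeg : Q.totalDegree = 1 := hhom.totalDegree hQ0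
  have hunit : ∀ b0 : MvPolynomial ι K, C b0 ∣ Q → IsUnit b0 := by
    intro b0 hb
    rw [C_dvd_iff_dvd_coeff] at hb
    have h1 : ∀ u, b0 ∣ y u := by
      intro u
      rw [← hcoeff u]
      exact hb _
    have h2 : Ideal.span (Set.range y) ≤ Ideal.span {b0} := by
      rw [Ideal.span_le]
      rintro _ ⟨u, rfl⟩
      exact Ideal.mem_span_singleton.mpr (h1 u)
    have h3 : b0 ∣ X i ^ n := Ideal.mem_span_singleton.mp (h2 hi)
    have h4 : b0 ∣ X j ^ n := Ideal.mem_span_singleton.mp (h2 hj)
    have hpi : Prime (X i : MvPolynomial ι K) := X_prime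
    have hpj : Prime (X j : MvPolynomial ι K) := X_prime
    obtain ⟨k, hk, hass⟩ := (dvd_prime_pow hpi n).mp h3
    rcases Nat.eq_zero_or_pos k with hk0 | hk0
    · rw [hk0, pow_zero] at hass
      exact hass.isUnit_iff.mpr isUnit_one
    · exfalso
      have h5 : (X i : MvPolynomial ι K) ∣ X j ^ n :=
        (dvd_pow_self _ hk0.ne').trans (hass.symm.dvd.trans h4)
      have h6 := hpi.dvd_of_dvd_pow h5
      rw [X_dvd_X] at h6
      exact hij h6
  apply Irreducible.prime
  refine ⟨?_, ?_⟩
  · rintro ⟨⟨a, b, hab, hba⟩, rfl : a = Q⟩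
    have hb0 : b ≠ 0 := by
      rintro rfl
      simp at hab
    have h := totalDegree_mul_of_isDomain hQ0 hb0
    rw [hab, hdeg, totalDegree_one] at h
    omega
  · intro a b hab
    have ha0 : a ≠ 0 := by
      rintro rfl
      exact hQ0 (by rw [hab, zero_mul])
    have hb0 : b ≠ 0 := by
      rintro rfl
      exact hQ0 (by rw [hab, mul_zero])
    have h := totalDegree_mul_of_isDomain ha0 hb0
    rw [← hab, hdeg] at h
    rcases Nat.eq_zero_or_pos a.totalDegree with h0 | h0
    · left
      have h1 := totalDegree_eq_zero_iff_eq_C.mp h0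
      rw [h1]
      apply IsUnit.map
      apply hunit
      rw [← h1, hab]
      exact dvd_mul_right a b
    · right
      have h0' : b.totalDegree = 0 := by omega
      have h1 := totalDegree_eq_zero_iff_eq_C.mp h0'
      rw [h1]
      apply IsUnit.map
      apply hunit
      rw [← h1, hab]
      exact dvd_mul_left b a

theorem taskC : Pool.Agent.H505R3.SLM.TaskC.{u} := by
  intro K _ ι σ _ _ i j hij n y hi hj
  have h := prime_lin K ι σ i j hij n y hi hj
  let E : MvPolynomial (ι ⊕ σ) K ≃ₐ[K] MvPolynomial σ (MvPolynomial ι K) :=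
    (renameEquiv K (Equiv.sumComm ι σ)).trans (sumAlgEquiv K σ ι)
  rw [← MulEquiv.prime_iff E.toMulEquiv]
  have hE : E.toMulEquiv (∑ u, rename Sum.inl (y u) * X (Sum.inr u)) = ∑ u, C (y u) * X u := by
    change E (∑ u, rename Sum.inl (y u) * X (Sum.inr u)) = _
    rw [map_sum]
    apply Finset.sum_congr rfl
    intro v _
    rw [map_mul]
    congr 1
    · have h1 : (E.toAlgHom.comp (rename Sum.inl)) = (Algebra.ofId (MvPolynomial ι K)
          (MvPolynomial σ (MvPolynomial ι K))).restrictScalars K := by
        apply MvPolynomial.algHom_ext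
        intro k
        simp [E, Algebra.ofId_apply, MvPolynomial.algebraMap_eq]
      exact congrArg (fun f => f (y v)) h1
    · simp [E]
  rw [hE]
  exact h

end Pool.Agent.H218R3.SLM
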